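import Pool.Agent.Helper59.LUC.Goals2

set_option autoImplicit false

namespace Pool.Agent.Helper59.LUC

namespace PkUB2

open Real

/-- the pointwise bound -/
lemma point (ρ : ℝ) (h0 : 0 < ρ) (h1 : ρ < 1) (u : ℂ) (hu : ‖u‖ = 1) (hu1 : u ≠ 1) :
    Real.log (‖1 - u‖ ^ 2) ≤ 2 * (1 - ρ) + 2 * (Complex.log (1 - ρ * u)).re := by
  have e1 : u.re ^ 2 + u.im ^ 2 = 1 := by
    have := Complex.sq_norm u
    rw [hu, Complex.normSq_apply] at this
    linarith
  have hA : ‖1 - u‖ ^ 2 = 2 - 2 * u.re := by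
    rw [Complex.sq_norm, Complex.normSq_apply]
    simp only [Complex.sub_re, Complex.sub_im, Complex.one_re, Complex.one_im]
    nlinarith [e1]
  have hB : ‖1 - (ρ : ℂ) * u‖ ^ 2 = 1 + ρ ^ 2 - 2 * ρ * u.re := by
    rw [Complex.sq_norm, Complex.normSq_apply]
    simp only [Complex.sub_re, Complex.sub_im, Complex.one_re, Complex.one_im, Complex.mul_re,
      Complex.mul_im, Complex.ofReal_re, Complex.ofReal_im]
    linear_combination ρ ^ 2 * e1
  have hre : -1 ≤ u.re ∧ u.re ≤ 1 := by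
    have := Complex.abs_re_le_norm u
    rw [hu] at this
    exact abs_le.1 this
  have hpos : 0 < ‖1 - u‖ ^ 2 := by
    have : 0 < ‖1 - u‖ := norm_pos_iff.2 (sub_ne_zero.2 (Ne.symm hu1))
    positivity
  have hBpos : 0 < ‖1 - (ρ : ℂ) * u‖ ^ 2 := by
    rw [hB]
    nlinarith [hre.2, sq_nonneg (1 - ρ), mul_pos h0 (sub_pos.2 h1)]
  have hk : ‖1 - u‖ ^ 2 ≤ (2 / (1 + ρ)) ^ 2 * ‖1 - (ρ : ℂ) * u‖ ^ 2 := by
    have hρ : 0 < 1 + ρ := by linarith
    rw [hA, hB, div_pow, div_mul_eq_mul_div, le_div_iff₀ (by positivity)]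
    nlinarith [mul_nonneg (sq_nonneg (1 - ρ)) (by linarith [hre.1] : (0 : ℝ) ≤ 1 + u.re)]
  have hlog : Real.log (‖1 - (ρ : ℂ) * u‖ ^ 2) = 2 * (Complex.log (1 - ρ * u)).re := by
    rw [Real.log_pow, Complex.log_re]
    norm_num
  calc Real.log (‖1 - u‖ ^ 2) ≤ Real.log ((2 / (1 + ρ)) ^ 2 * ‖1 - (ρ : ℂ) * u‖ ^ 2) :=
        Real.log_le_log hpos hk
    _ = 2 * Real.log (2 / (1 + ρ)) + Real.log (‖1 - (ρ : ℂ) * u‖ ^ 2) := by
        rw [Real.log_mul (by positivity) hBpos.ne', Real.log_pow]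
        norm_num
    _ ≤ 2 * (1 - ρ) + 2 * (Complex.log (1 - ρ * u)).re := by
        rw [hlog]
        have h2 : Real.log (2 / (1 + ρ)) ≤ 1 - ρ := by
          have h3 := Real.log_le_sub_one_of_pos (x := 2 / (1 + ρ)) (by positivity)
          have h4 : 2 / (1 + ρ) - 1 ≤ 1 - ρ := by
            rw [div_sub_one (by positivity), div_le_iff₀ (by positivity)]
            nlinarith
          linarith
        linarith

theorem thm : G_UB2 := by
  intro ε hε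
  -- the choice of the radius
  obtain ⟨ρ, h0, h1, h2⟩ : ∃ ρ : ℝ, 0 < ρ ∧ ρ < 1 ∧ 2 * (1 - ρ) ≤ ε := by
    refine ⟨1 - min (1 / 2) (ε / 2), ?_, ?_, ?_⟩
    · have := min_le_left (1 / 2 : ℝ) (ε / 2)
      linarith
    · have : 0 < min (1 / 2 : ℝ) (ε / 2) := lt_min (by norm_num) (by linarith)
      linarith
    · have := min_le_right (1 / 2 : ℝ) (ε / 2)
      linarith
  have h1' : 0 < 1 - ρ := sub_pos.2 h1
  refine ⟨2 / (1 - ρ), by positivity, ?_⟩
  intro ξ hξ O R hR hO hk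
  have hξ0 : ξ ≠ 0 := by
    intro h
    rw [h, norm_zero] at hξ
    exact zero_ne_one hξ
  have hnu : ∀ z ∈ O, ‖z / ξ‖ = 1 := by
    intro z hz
    rw [norm_div, (hO z hz).1, hξ, div_one]
  have hterm : ∀ z ∈ O, Real.log (‖ξ - z‖ ^ 2) ≤
      2 * (1 - ρ) + 2 * (Complex.log (1 - ρ * (z / ξ))).re := by
    intro z hz
    have e : ‖ξ - z‖ = ‖1 - z / ξ‖ := by
      have : ξ - z = ξ * (1 - z / ξ) := by
        field_simp
      rw [this, norm_mul, hξ, one_mul]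
    rw [e]
    refine point ρ h0 h1 (z / ξ) (hnu z hz) ?_
    intro h
    rw [div_eq_one_iff_eq hξ0] at h
    exact (hO z hz).2 h
  have hs : HasSum (fun n : ℕ => ∑ z ∈ O, ((ρ : ℂ) * (z / ξ)) ^ n / n)
      (∑ z ∈ O, -Complex.log (1 - ρ * (z / ξ))) := by
    refine hasSum_sum fun z hz => ?_
    refine Complex.hasSum_taylorSeries_neg_log ?_
    rw [norm_mul, hnu z hz, mul_one, Complex.norm_real, Real.norm_of_nonneg h0.le]
    exact h1
  have hg : HasSum (fun n : ℕ => ρ ^ n * R) ((1 - ρ)⁻¹ * R) :=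
    (hasSum_geometric_of_lt_one h0.le h1).mul_right R
  have hb : ∀ n : ℕ, ‖∑ z ∈ O, ((ρ : ℂ) * (z / ξ)) ^ n / n‖ ≤ ρ ^ n * R := by
    intro n
    have e : ∑ z ∈ O, ((ρ : ℂ) * (z / ξ)) ^ n / n =
        ((ρ : ℂ) ^ n / (n * ξ ^ n)) * ∑ z ∈ O, z ^ n := by
      rw [Finset.mul_sum]
      refine Finset.sum_congr rfl fun z _ => ?_
      rw [mul_pow, div_pow]
      ring
    rw [e, norm_mul, norm_div, norm_mul, norm_pow, norm_pow, hξ, one_pow, mul_one,
      Complex.norm_real, Real.norm_of_nonneg h0.le, Complex.norm_natCast]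
    rcases Nat.eq_zero_or_pos n with hn | hn
    · subst hn
      simp only [Nat.cast_zero, div_zero, zero_mul, pow_zero, one_mul]
      exact hR
    · have hn' : (1 : ℝ) ≤ n := by exact_mod_cast hn
      have h3 : ‖∑ z ∈ O, z ^ n‖ ≤ n * R := by
        refine abs_le_of_sq_le_sq' ?_ (by positivity) |>.2
        calc ‖∑ z ∈ O, z ^ n‖ ^ 2 ≤ n * R ^ 2 := hk n hn
          _ ≤ (n * R) ^ 2 := by nlinarith [mul_nonneg (sub_nonneg.2 hn') (sq_nonneg R), sq_nonneg R]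
      calc ρ ^ n / n * ‖∑ z ∈ O, z ^ n‖ ≤ ρ ^ n / n * (n * R) :=
            mul_le_mul_of_nonneg_left h3 (by positivity)
        _ = ρ ^ n * R := by field_simp
  have hS : ‖∑ z ∈ O, -Complex.log (1 - ρ * (z / ξ))‖ ≤ (1 - ρ)⁻¹ * R := by
    rw [← hs.tsum_eq]
    exact tsum_of_norm_bounded hg hb
  have hre : -((1 - ρ)⁻¹ * R) ≤ (∑ z ∈ O, -Complex.log (1 - ρ * (z / ξ))).re :=
    (abs_le.1 ((Complex.abs_re_le_norm _).trans hS)).1
  rw [Complex.re_sum] at hre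
  simp only [Complex.neg_re, Finset.sum_neg_distrib] at hre
  calc ∑ z ∈ O, Real.log (‖ξ - z‖ ^ 2)
      ≤ ∑ z ∈ O, (2 * (1 - ρ) + 2 * (Complex.log (1 - ρ * (z / ξ))).re) :=
        Finset.sum_le_sum hterm
    _ = 2 * (1 - ρ) * O.card + 2 * ∑ z ∈ O, (Complex.log (1 - ρ * (z / ξ))).re := by
        rw [Finset.sum_add_distrib, Finset.sum_const, nsmul_eq_mul, Finset.mul_sum]
        ring
    _ ≤ ε * O.card + 2 / (1 - ρ) * R := by
        have h3 : 2 * (1 - ρ) * (O.card : ℝ) ≤ ε * O.card :=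
          mul_le_mul_of_nonneg_right h2 (Nat.cast_nonneg _)
        have h4 : 2 / (1 - ρ) * R = 2 * ((1 - ρ)⁻¹ * R) := by ring
        linarith

end PkUB2

end Pool.Agent.Helper59.LUC
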